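import Pool.Agent.Lib.MP_453ac3_co.Eff.Const

namespace Pool.Agent.Results.MP_453ac3_co.BoundedError

open Pool.Agent.Lib.MP_453ac3_co

theorem result : ∃ (C : ℝ) (n0 : ℕ), ∀ n ≥ n0, |(deltaMin n : ℝ) - 4 / 9 * n| ≤ C :=
  bounded_error

end Pool.Agent.Results.MP_453ac3_co.BoundedError
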